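import Pool.Agent.Work.MP_e350e5_pl.B_UNQ
import Pool.Agent.Work.MP_e350e5_pl.B_INJ
import Pool.Agent.Work.MP_e350e5_pl.B_CNT
import Pool.Agent.Work.MP_e350e5_pl.B_NB
import Pool.Agent.Work.MP_e350e5_pl.B_CEN
import Pool.Agent.Work.MP_e350e5_pl.B_MAIN

/-!
# MP_e350e5_lc: Delaunay triangulations of points on parallel lines
-/

set_option autoImplicit false

namespace Pool.Agent.Results.MP_e350e5_lc.ParallelLines

open Finset Pool.DTree Pool.PL
open scoped Classical

/-- `n` different points on `k` parallel (vertical) lines have at most `n * C(k,3)` Delaunay spheres (vertices of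
the Voronoi diagram), at most `70 * n * C(k,3)` sets of four points are Delaunay, and every Delaunay triangulation
has at most `70 * n * C(k,3)` tetrahedra. -/
theorem result (n : ℕ) (x : Fin n × Fin 3 → ℝ) (hx : Function.Injective (pt x)) :
    ({o | IsCen x o}.Finite ∧ {o | IsCen x o}.ncard ≤ n * (lns x).card.choose 3) ∧
    {S | IsDel x S}.ncard ≤ 70 * (n * (lns x).card.choose 3) ∧
    ∀ T : Finset (Finset (Fin n)), IsDT x T → T.card ≤ 70 * (n * (lns x).card.choose 3) :=
  p_MAIN (p_CEN (p_LIN p_UNQ) (p_INJ p_UNQ) p_CNT) p_NB n x hx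

end Pool.Agent.Results.MP_e350e5_lc.ParallelLines
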