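import Pool.Agent.Work.MP_e350e5_ric.B_ABx
import Pool.Agent.Work.MP_e350e5_ric.B_CV
import Pool.Agent.Work.MP_e350e5_ric.B_UP
import Pool.Agent.Work.MP_e350e5_ric.B_QT
import Pool.Agent.Work.MP_e350e5_ric.B_LOWx
import Pool.Agent.Work.MP_e350e5_ric.B_CHO
import Pool.Agent.Work.MP_e350e5_ric.FIN2

/-!
# MP_e350e5_lc, Q1: random subsets of sets with small Delaunay triangulations

Proof: `Pool.Agent.Work.MP_e350e5_ric.Interface`.
-/

set_option autoImplicit false

open Pool.Ric

namespace Pool.Agent.Results.MP_e350e5_lc.RandomSubsets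

/-- `P = A ∪ B ∪ M` with `A`, `B` sets of `2 s` points on two skew lines and `M` three points between them: all
Delaunay triangulations of `P` have at most `16 s` tetrahedra, and for all subsets `R` of `A ∪ B` with `3 s` points,
at least one `64`-th of the subsets of `P` with `3 s` points, every Delaunay triangulation has at least
`(s - 1) (2 s - 1)` tetrahedra. -/
theorem result : ∀ s : ℕ, 1 ≤ s →
    (A (2 * s) ∪ B (2 * s) ∪ M).card = 4 * s + 3 ∧
    (∀ T, IsTri (A (2 * s) ∪ B (2 * s) ∪ M) T → T.card ≤ 16 * s) ∧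
    ((A (2 * s) ∪ B (2 * s) ∪ M).powersetCard (3 * s)).card ≤
      64 * ((A (2 * s) ∪ B (2 * s)).powersetCard (3 * s)).card ∧
    ∀ R ∈ (A (2 * s) ∪ B (2 * s)).powersetCard (3 * s), ∀ T, IsTri R T →
      (s - 1) * (2 * s - 1) ≤ T.card :=
  p_FIN2 (p_UP p_ABx p_CV) (p_LOWx p_QT) p_CHO

end Pool.Agent.Results.MP_e350e5_lc.RandomSubsets
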