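import Pool.Agent.Work.MP_e350e5_lc.FIN2
import Pool.Agent.Work.MP_e350e5_lc.Def3
import Pool.Agent.Work.MP_e350e5_lc.B_CH
import Pool.Agent.Work.MP_e350e5_lc.B_HALF
import Pool.Agent.Work.MP_e350e5_lc.B_SG
import Pool.Agent.Work.MP_e350e5_lc.B_UP
import Pool.Agent.Work.MP_e350e5_lc.B_ZS
import Pool.Agent.Work.MP_e350e5_lc.B_TRx
import Pool.Agent.Work.MP_e350e5_lc.B_SPH
import Pool.Agent.Work.MP_e350e5_lc.B_CIR
import Pool.Agent.Work.MP_e350e5_lc.B_AFFx
import Pool.Agent.Work.MP_e350e5_lc.B_EV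
import Pool.Agent.Work.MP_e350e5_lc.B_DEG
import Pool.Agent.Work.MP_e350e5_lc.B_NUM
import Pool.Agent.Work.MP_e350e5_lc.B_LV
import Pool.Agent.Work.MP_e350e5_lc.B_TWO
import Pool.Agent.Work.MP_e350e5_lc.B_TMAX
import Pool.Agent.Work.MP_e350e5_lc.B_TSEP
import Pool.Agent.Work.MP_e350e5_lc.B_TGR1
import Pool.Agent.Work.MP_e350e5_lc.B_TCOV
import Pool.Agent.Work.MP_e350e5_lc.B_TINT
import Pool.Agent.Work.MP_e350e5_lc.B_TIDx
import Pool.Agent.Work.MP_e350e5_lc.B_TPOL
import Pool.Agent.Work.MP_e350e5_lc.B_TSGN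
import Pool.Agent.Work.MP_e350e5_lc.B_TSTB
import Pool.Agent.Work.MP_e350e5_lc.B_TINV
import Pool.Agent.Work.MP_e350e5_lc.B_TGENx
import Pool.Agent.Work.MP_e350e5_lc.B_TDEL
import Pool.Agent.Work.MP_e350e5_lc.B_TVER
import Pool.Agent.Work.MP_e350e5_lc.B_TFIN
import Pool.Agent.Work.MP_e350e5_lc.B_TL1
import Pool.Agent.Work.MP_e350e5_lc.B_TL2
import Pool.Agent.Work.MP_e350e5_lc.B_TL3

/-!
# MP_e350e5_lc: the number of sign tests for three-dimensional Delaunay triangulations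

The order of the number of sign tests (of polynomials in the coordinates) which are needed to find a Delaunay
triangulation of `n` different points of three-dimensional space, not all in a plane, degenerate or not, is exactly
`n log n`.
-/

set_option autoImplicit false

namespace Pool.Agent.Results.MP_e350e5_lc.SignTests

open Pool.DTree

/-- There is a tree of depth at most `252 n log (n + 2)` which finds the signs of all orientation and in-sphere
determinants and a Delaunay triangulation of every set of `n` points not all in a plane, and every tree which finds a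
Delaunay triangulation of every such set has depth at least `c n log n`. -/
theorem result :
    (∀ n : ℕ, ∃ T : Tree (Fin n × Fin 3) ((Ix n → SignType) × Finset (Finset (Fin n))),
      (T.depth : ℝ) ≤ 252 * n * Real.log (n + 2) ∧
        ∀ x, (T.run x).1 = sv F x ∧ (Ok x → IsTri x (T.run x).2)) ∧
    ∃ c : ℝ, 0 < c ∧ ∀ n : ℕ, 5 ≤ n → ∀ T : Tree (Fin n × Fin 3) (Finset (Finset (Fin n))),
      (∀ x, Ok x → IsTri x (T.run x)) → c * n * Real.log n ≤ T.depth := by
  have hTR : S_TR := p_TR (p_SG (p_HALF p_CH)) (p_ZS p_UP)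
  have hTID : S_TID := p_TID p_AFF
  have hTFIN : S_TFIN := p_TFIN (p_TCOV p_TMAX p_TSEP p_TGR1) p_TINT (p_TSTB hTID p_TPOL p_TSGN)
    (p_TGENx p_TPOL p_TSGN p_AFF) (p_TDEL p_SPH p_CIR p_AFF hTID p_TPOL) p_TVER
  refine ⟨fun n => ?_, ?_⟩
  · obtain ⟨T, hT, hr⟩ := fin2_upper hTR (p_TINV hTID p_TPOL p_TSGN p_EV) p_DEG p_NUM hTFIN n
    exact ⟨T, hT, fun x => ⟨(hr x).1, fun h => (isTri_iff x _).2 ((hr x).2 h.1
      (h.2.elim fun S hS => span_of_indep x S hS.1 hS.2))⟩⟩
  · obtain ⟨c, hc, h⟩ := p_TL3 p_LV (p_TL1 p_TWO) p_TL2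
    exact ⟨c, hc, fun n hn T hT => h n hn T fun x h1 h2 =>
      (isTri_iff x _).1 (hT x ⟨h1, indep_of_span x h2⟩)⟩

end Pool.Agent.Results.MP_e350e5_lc.SignTests
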